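import Pool.Agent.W886.CS.Stm1
import Pool.Agent.H620R2.Gauge.A2

/-!
# Polynomial space is contained in exponential time, relative to an oracle
-/

set_option autoImplicit false

namespace Pool.Agent.W168.CS

open Pool.Agent.NPC Pool.Agent.H620R2.Gauge Pool.Agent.H622R2

theorem poly_take {α β : Type} [TEnc α] [TEnc β] {l : α → List β} {n : α → ℕ} (hl : Poly l)
    (hn : UPoly n) : Poly (fun a => (l a).take (n a)) := by
  refine (NPC.Poly.map (F := fun (_ : α) (p : β × Unit) => p.1) (NPC.Poly.zip hl hn)
    (NPC.Poly.fst (NPC.Poly.snd NPC.Poly.id))).congr fun a => ?_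
  have key : ∀ (l : List β) (n : ℕ),
      (l.zip (List.replicate n ())).map (fun p => p.1) = l.take n := by
    intro l
    induction l with
    | nil => intro n; simp
    | cons b l ih =>
      intro n
      cases n with
      | zero => simp
      | succ n => simp [List.replicate_succ, ih]
  exact key _ _

/-- the content of the memory after the answers `a` -/
def stt (N : SAlg) (p : Polynomial ℕ) (x a : List Bool) : List Bool :=
  a.foldl (fun s b => (N.next (pairBits x (b :: s))).take (p.eval x.length)) []

theorem stt_snoc (N : SAlg) (p : Polynomial ℕ) (x a : List Bool) (b : Bool) :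
    stt N p x (a ++ [b]) = (N.next (pairBits x (b :: stt N p x a))).take (p.eval x.length) := by
  unfold stt
  rw [List.foldl_append]
  rfl

theorem stt_length (N : SAlg) (p : Polynomial ℕ) (x a : List Bool) :
    (stt N p x a).length ≤ p.eval x.length := by
  induction a using List.reverseRecOn with
  | nil => simp [stt]
  | append_singleton a b _ =>
    rw [stt_snoc, List.length_take]
    exact min_le_left _ _

theorem poly_stt (N : SAlg) (p : Polynomial ℕ) :
    Poly (fun y : List Bool => stt N p (unpair y).1 (unpair y).2) := by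
  have hx : Poly (fun y => (unpair y).1) := NPC.Poly.fst poly_unpair
  have hw : Poly (fun y => (unpair y).2) := NPC.Poly.snd poly_unpair
  obtain ⟨r, hr⟩ := hx.sz_le
  have hF : Poly (fun t : List Bool × List Bool × Bool =>
      (N.next (pairBits (unpair t.1).1 (t.2.2 :: t.2.1))).take (p.eval (unpair t.1).1.length)) := by
    apply poly_take
    · exact (poly_of_polyTime N.next_poly).comp (poly_pairBits (hx.comp (NPC.Poly.fst NPC.Poly.id))
        (NPC.Poly.cons (NPC.Poly.snd (NPC.Poly.snd NPC.Poly.id))
          (NPC.Poly.fst (NPC.Poly.snd NPC.Poly.id))))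
    · exact (UPoly.length (hx.comp (NPC.Poly.fst NPC.Poly.id))).eval p
  refine NPC.Poly.foldl (F := fun (y : List Bool) (s : List Bool) (b : Bool) =>
    (N.next (pairBits (unpair y).1 (b :: s))).take (p.eval (unpair y).1.length)) hw
    (NPC.Poly.const []) hF (Polynomial.C 4 * p.comp r + Polynomial.C 1) ?_
  intro y k _
  have h1 := stt_length N p (unpair y).1 ((unpair y).2.take k)
  have h2 := sz_listBool_le (stt N p (unpair y).1 ((unpair y).2.take k))
  have h3 := hr y
  have h4 := length_lt_sz (unpair y).1
  have h5 := eval_mono p (h4.le.trans h3)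
  simp only [Polynomial.eval_add, Polynomial.eval_mul, Polynomial.eval_C, Polynomial.eval_comp]
  change sz (stt N p (unpair y).1 ((unpair y).2.take k)) ≤ _
  omega

/-- the algorithm -/
noncomputable def alg (N : SAlg) (p : Polynomial ℕ) : Alg where
  D y := N.act (pairBits (unpair y).1 (stt N p (unpair y).1 (unpair y).2))
  poly := polyTime_of_poly_list ((poly_of_polyTime N.act_poly).comp
    (poly_pairBits (NPC.Poly.fst poly_unpair) (poly_stt N p)))
  p := p + Polynomial.C 1

theorem alg_D (N : SAlg) (p : Polynomial ℕ) (x a : List Bool) :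
    (alg N p).D (pairBits x a) = N.act (pairBits x (stt N p x a)) := by
  change N.act (pairBits (unpair (pairBits x a)).1
    (stt N p (unpair (pairBits x a)).1 (unpair (pairBits x a)).2)) = _
  rw [unpair_pairBits]

/-- the true contents of the memory -/
def tr (N : SAlg) (A : Oracle) (x : List Bool) : ℕ → List Bool
  | 0 => []
  | j + 1 => N.next (pairBits x (A (N.act (pairBits x (tr N A x j))).tail :: tr N A x j))

/-- the answers -/
def ans (N : SAlg) (A : Oracle) (x : List Bool) (j : ℕ) : List Bool :=
  (List.range j).map (fun i => A (N.act (pairBits x (tr N A x i))).tail)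

theorem ans_succ (N : SAlg) (A : Oracle) (x : List Bool) (j : ℕ) :
    ans N A x (j + 1) = ans N A x j ++ [A (N.act (pairBits x (tr N A x j))).tail] := by
  unfold ans
  rw [List.range_succ, List.map_append]
  rfl

theorem exists_tr {N : SAlg} {A : Oracle} {x s : List Bool} (h : N.Reach A x s) :
    ∃ j, s = tr N A x j ∧ ∀ i < j, ∃ q, N.act (pairBits x (tr N A x i)) = false :: q := by
  induction h with
  | start => exact ⟨0, rfl, fun i hi => absurd hi (Nat.not_lt_zero i)⟩
  | @step s q hs hq ih =>
    obtain ⟨j, rfl, hj⟩ := ih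
    refine ⟨j + 1, ?_, ?_⟩
    · rw [tr, hq]
      rfl
    · intro i hi
      rcases Nat.lt_succ_iff_lt_or_eq.1 hi with h | rfl
      · exact hj i h
      · exact ⟨q, hq⟩

theorem reach_tr {N : SAlg} {A : Oracle} {x : List Bool} {J : ℕ}
    (hJ : ∀ i < J, ∃ q, N.act (pairBits x (tr N A x i)) = false :: q) :
    ∀ j ≤ J, N.Reach A x (tr N A x j) := by
  intro j
  induction j with
  | zero => intro _; exact SAlg.Reach.start
  | succ j ih =>
    intro hj
    obtain ⟨q, hq⟩ := hJ j (by omega)
    have h1 := SAlg.Reach.step (ih (by omega)) hq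
    rw [tr, hq]
    exact h1

theorem tr_shift {N : SAlg} {A : Oracle} {x : List Bool} {i i' : ℕ}
    (h : tr N A x i = tr N A x i') : ∀ m, tr N A x (i + m) = tr N A x (i' + m) := by
  intro m
  induction m with
  | zero => exact h
  | succ m ih =>
    rw [← Nat.add_assoc, ← Nat.add_assoc, tr, tr, ih]

theorem sum_two (m : ℕ) : ∑ n ∈ Finset.range m, 2 ^ n + 1 = 2 ^ m := by
  induction m with
  | zero => simp
  | succ m ih => rw [Finset.sum_range_succ, pow_succ]; omega

theorem card_short (X : Finset (List Bool)) (P : ℕ) (h : ∀ s ∈ X, s.length ≤ P) :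
    X.card ≤ 2 ^ (P + 1) := by
  rw [Finset.card_eq_sum_card_fiberwise (f := List.length) (t := Finset.range (P + 1))
    (fun s hs => by simpa using Nat.lt_succ_of_le (h s hs))]
  have h1 := sum_two (P + 1)
  have h2 : ∑ n ∈ Finset.range (P + 1), (X.filter (fun s => s.length = n)).card ≤
      ∑ n ∈ Finset.range (P + 1), 2 ^ n := Finset.sum_le_sum fun n _ => X2_card X n
  omega

theorem task : Pool.Agent.W886.CS.S_PSE := by
  rintro A L ⟨N, p, hN⟩
  refine ⟨alg N p, fun x => ?_⟩
  obtain ⟨hlen, s, z, hs, hact, hL⟩ := hN x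
  obtain ⟨J, rfl, hJ⟩ := exists_tr hs
  refine ⟨z, ?_, hL⟩
  have hreach := reach_tr hJ
  have hl : ∀ j ≤ J, (tr N A x j).length ≤ p.eval x.length := fun j hj => hlen _ (hreach j hj)
  -- no repetitions
  have hinj : ∀ i i', i < i' → i' ≤ J → tr N A x i ≠ tr N A x i' := by
    intro i i' h1 h2 h3
    have h4 := tr_shift h3 (J - i')
    rw [Nat.add_sub_cancel' h2] at h4
    obtain ⟨q, hq⟩ := hJ (i + (J - i')) (by omega)
    rw [h4, hact] at hq
    simp at hq
  have hcard : J + 1 ≤ 2 ^ (p.eval x.length + 1) := by
    have h1 := card_short ((Finset.range (J + 1)).image (tr N A x)) (p.eval x.length) (by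
      intro s hs
      obtain ⟨j, hj, rfl⟩ := Finset.mem_image.1 hs
      exact hl j (Nat.lt_succ_iff.1 (Finset.mem_range.1 hj)))
    rwa [Finset.card_image_of_injOn, Finset.card_range] at h1
    intro i hi i' hi' h
    have hi1 := Nat.lt_succ_iff.1 (Finset.mem_range.1 (Finset.mem_coe.1 hi))
    have hi2 := Nat.lt_succ_iff.1 (Finset.mem_range.1 (Finset.mem_coe.1 hi'))
    rcases lt_trichotomy i i' with h1 | h1 | h1
    · exact absurd h (hinj i i' h1 hi2)
    · exact h1
    · exact absurd h.symm (hinj i' i h1 hi1)
  -- the simulation is faithful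
  have hst : ∀ j ≤ J, stt N p x (ans N A x j) = tr N A x j := by
    intro j
    induction j with
    | zero => intro _; rfl
    | succ j ih =>
      intro hj
      rw [ans_succ, stt_snoc, ih (by omega)]
      have h1 := hl (j + 1) hj
      rw [tr] at h1
      rw [tr, List.take_of_length_le h1]
  have hrun : ∀ n j, j ≤ J → J < j + n → (alg N p).run A x n (ans N A x j) = some z := by
    intro n
    induction n with
    | zero => intro j h1 h2; omega
    | succ n ih =>
      intro j h1 h2
      rw [Alg.run, alg_D, hst j h1]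
      rcases Nat.lt_or_ge j J with h | h
      · obtain ⟨q, hq⟩ := hJ j h
        have h3 := ih (j + 1) h (by omega)
        rw [ans_succ, hq] at h3
        rw [hq]
        exact h3
      · have hj : j = J := by omega
        subst hj
        rw [hact]
  have h0 := hrun (2 ^ (alg N p).p.eval x.length) 0 (Nat.zero_le _) (by
    change J < 0 + 2 ^ (p + Polynomial.C 1).eval x.length
    rw [Polynomial.eval_add, Polynomial.eval_C]
    omega)
  exact h0

end Pool.Agent.W168.CS
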